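import Pool.Agent.H73.GWT.Stmts

/-! Project GWT, row TUN: the type decodes all tracked letters but the lowest and the highest. -/

set_option autoImplicit false

open Classical

namespace GWT

section TUNsec

variable {ι G V : Type*} [Fintype ι] [Group G] [MulAction G V] (C : Code ι G V)

theorem TUN_tail (w : ℕ → G) (z : V) (b : List ι) (Q : List (ι × List ι)) :
    ∀ (P : List (ι × List ι)) (R : ℕ), Ok C w z (P ++ Q) b R →
      ∃ R₁, Ok C w z Q b R₁ ∧ P.length * C.Λ + R₁ ≤ R := by
  intro P
  induction P with
  | nil =>
    intro R h
    exact ⟨R, h, by simp⟩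
  | cons f P ih =>
    intro R h
    rw [List.cons_append] at h
    obtain ⟨h1, -, -, -, h5⟩ := h
    obtain ⟨R₁, h6, h7⟩ := ih _ h5
    refine ⟨R₁, h6, ?_⟩
    rw [List.length_cons, Nat.succ_mul]
    omega

theorem TUN_offs (w : ℕ → G) (b : List ι) :
    ∀ (F : List (ι × List ι)) (i : ℕ), (offs C w F b).drop i = offs C w (F.drop i) b := by
  intro F
  induction F with
  | nil =>
    intro i
    rw [List.drop_nil, offs, List.drop_nil]
  | cons f F ih =>
    intro i
    cases i with
    | zero => rw [List.drop_zero, List.drop_zero]
    | succ i => rw [offs, List.drop_succ_cons, List.drop_succ_cons, ih]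

theorem TUN_low (w : ℕ → G) (s : ι) (m : List ι) :
    C.d C.o (W C w m • C.o) ≤ pos C w s m + C.Λ := by
  have h1 := dtri C.tree C.o (W C w m • C.c s • C.o) (W C w m • C.o)
  have h2 : C.T.dist (W C w m • C.c s • C.o) (W C w m • C.o) = C.Λ := by
    rw [C.ds, dcomm]
    exact C.d1 s
  unfold pos
  show C.T.dist C.o (W C w m • C.o) ≤ C.T.dist C.o (W C w m • C.c s • C.o) + C.Λ
  omega

theorem TUN (hHTD : HTDStmt C) (hTDC : TDCStmt C) : TUNStmt C := by
  intro w g g' F F' b t t₁ t₂ Q P R R' ht1 ht2 hR hR' hF hF' hsnd hT hT' hoffs htake hdrop
  have hlen : F.length = F'.length := by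
    have h := congrArg List.length hsnd
    rwa [List.length_map, List.length_map] at h
  have hmain : ∀ j, j ≤ F.length → F.drop (F.length - j) = F'.drop (F.length - j) := by
    intro j
    induction j with
    | zero =>
      intro _
      rw [Nat.sub_zero, List.drop_length, hlen, List.drop_length]
    | succ j ih =>
      intro hj
      obtain ⟨i, hi⟩ : ∃ i, i = F.length - (j + 1) := ⟨_, rfl⟩
      have hi1 : F.length - j = i + 1 := by omega
      have hij : i < F.length := by omega
      have hij' : i < F'.length := by omega
      have ih' := ih (by omega)
      rw [hi1] at ih'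
      rw [← hi]
      rw [List.drop_eq_getElem_cons hij, List.drop_eq_getElem_cons hij', ih']
      have e2 : F[i].2 = F'[i].2 := by
        have h := congrArg (fun l : List (List ι) => l[i]?) hsnd
        simp only [List.getElem?_map, List.getElem?_eq_getElem hij,
          List.getElem?_eq_getElem hij', Option.map_some, Option.some.injEq] at h
        exact h
      have e1 : F[i].1 = F'[i].1 := by
        by_cases hc1 : i < t + 1
        · have h := congrArg (fun l : List ι => l[i]?) htake
          simp only [List.getElem?_take, if_pos hc1, List.getElem?_map,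
            List.getElem?_eq_getElem hij, List.getElem?_eq_getElem hij', Option.map_some,
            Option.some.injEq] at h
          exact h
        · by_cases hc2 : F.length - (t + 1) ≤ i
          · have h := congrArg (fun l : List ι => l[i - (F.length - (t + 1))]?) hdrop
            have e3 : F.length - (t + 1) + (i - (F.length - (t + 1))) = i := by omega
            have e4 : F'.length - (t + 1) + (i - (F.length - (t + 1))) = i := by omega
            simp only [List.getElem?_drop, e3, e4, List.getElem?_map,
              List.getElem?_eq_getElem hij, List.getElem?_eq_getElem hij', Option.map_some,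
              Option.some.injEq] at h
            exact h
          · have hFd : F = F.take i ++ (F[i] :: F.drop (i + 1)) := by
              rw [← List.drop_eq_getElem_cons hij, List.take_append_drop]
            have hFd' : F' = F'.take i ++ (F'[i] :: F'.drop (i + 1)) := by
              rw [← List.drop_eq_getElem_cons hij', List.take_append_drop]
            have hok := hF
            rw [hFd] at hok
            obtain ⟨R₁, h1, h2⟩ := TUN_tail C w _ b _ _ _ hok
            have hok' := hF'
            rw [hFd'] at hok'
            obtain ⟨R₁', h1', h2'⟩ := TUN_tail C w _ b _ _ _ hok'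
            rw [ih'] at h1
            rw [List.length_take, Nat.min_eq_left hij.le] at h2
            rw [List.length_take, Nat.min_eq_left hij'.le] at h2'
            obtain ⟨a1, a2, a3, a4, a5⟩ := h1
            obtain ⟨b1, b2, b3, b4, b5⟩ := h1'
            have ho := congrArg (fun l : List ℕ => l.drop i) hoffs
            simp only [TUN_offs, List.drop_eq_getElem_cons hij, List.drop_eq_getElem_cons hij',
              ih', offs, List.cons.injEq] at ho
            have ho1 := ho.1
            have l1 := TUN_low C w F[i].1 (full (F'.drop (i + 1)) b)
            have l2 := TUN_low C w F'[i].1 (full (F'.drop (i + 1)) b)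
            have hpos : pos C w F[i].1 (full (F'.drop (i + 1)) b) =
                pos C w F'[i].1 (full (F'.drop (i + 1)) b) := by omega
            have hQ := hHTD.1 w _ _ _ _ a5
            rw [List.length_drop] at hQ
            have hΛ := C.Λ_pos
            have hQ2 : t + 1 ≤ (F'.length - (i + 1)) * C.Λ := by
              calc t + 1 ≤ (F'.length - (i + 1)) * 1 := by omega
                _ ≤ _ := Nat.mul_le_mul_left _ hΛ
            have hi2 : t + 1 ≤ i * C.Λ := by
              calc t + 1 ≤ i * 1 := by omega
                _ ≤ _ := Nat.mul_le_mul_left _ hΛ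
            refine hTDC (W C w (full (F'.drop (i + 1)) b)) g g' F[i].1 F'[i].1 t₁ t₂ Q P hT hT'
              a2 a3 a4 b2 b3 b4 hpos ?_ ?_ ?_
            · show t₁ ≤ pos C w F[i].1 (full (F'.drop (i + 1)) b)
              omega
            · show pos C w F[i].1 (full (F'.drop (i + 1)) b) + C.Λ + t₂ ≤ _
              omega
            · show pos C w F[i].1 (full (F'.drop (i + 1)) b) + C.Λ + t₂ ≤ _
              omega
      rw [Prod.ext e1 e2]
  have h := hmain F.length le_rfl
  rwa [Nat.sub_self, List.drop_zero, List.drop_zero] at h

end TUNsec

end GWT
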